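import Mathlib
import Pool.Agent.Q226.TM.Diag

set_option autoImplicit false

/-!
# Diagonal Hankel determinants of the inverse Thue-Morse series

Proof. The coefficients of the inverse series are `c m = tau ((m + 1) / 2)` for `m ≥ 1`, `tau` being
the indicator function of the Moser-de Bruijn set. Sorting the indices by parity and subtracting rows
and columns expresses the Hankel determinants of this sequence, of `tau`, of `kap` with
`kap (2 m) = tau m`, `kap (2 m + 1) = 0`, and of their difference sequences, as signed products of two
such determinants of half the size. On the lines close to the diagonal this is a closed system, which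
is solved by induction.
-/

namespace Pool.Agent.Results.MP_be5c27_co.DiagonalHankel

open PowerSeries

/-- The Thue-Morse series `F = ∑ t_n X ^ n` over the field with two elements: `t_n` is the sum of
the binary digits of `n` modulo `2`. -/
noncomputable def F : PowerSeries (ZMod 2) :=
  PowerSeries.mk fun n => ((Nat.digits 2 n).sum : ZMod 2)

/-- The Hankel matrix `h_{p,n}` of the coefficients `c_m` of the series `G`, regarded as the integers
`0` and `1`: the entry with indices `i, j` in `{1, …, n}` is `c_{p+i+j-1}`; here the indices are
`i, j` in `{0, …, n-1}`, so it is `c_{p+i+j+1}`. -/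
noncomputable def hankel (G : PowerSeries (ZMod 2)) (p n : ℕ) : Matrix (Fin n) (Fin n) ℤ :=
  Matrix.of fun i j => ((coeff (p + i + j + 1) G).val : ℤ)

/-- `n` is a sum of distinct powers of `4`. -/
def MoserDeBruijn (n : ℕ) : Prop := ∃ S : Finset ℕ, n = ∑ k ∈ S, 4 ^ k

/-- **The answer to Q1 (yes).** The Thue-Morse series `F` has a compositional inverse `G`, it is the
only series without constant term with `F (G (X)) = X`, and for all `n` its Hankel determinant
`H_{n,n}` is `1` if `n` is a sum of distinct powers of `4`, and `0` otherwise. -/
theorem result : ∃ G : PowerSeries (ZMod 2),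
    (constantCoeff G = 0 ∧ F.subst G = X ∧ G.subst F = X) ∧
    (∀ G' : PowerSeries (ZMod 2), constantCoeff G' = 0 → F.subst G' = X → G' = G) ∧
    ∀ n : ℕ, (MoserDeBruijn n → (hankel G n n).det = 1) ∧
      (¬ MoserDeBruijn n → (hankel G n n).det = 0) := by
  obtain ⟨G, h0, h1, h2⟩ := Q226.TM.exists_inverse
  refine ⟨G, ⟨h0, h1, h2⟩, fun G' h0' h1' => Q226.TM.unique G' G h0' h1' h0 h1, fun n => ?_⟩
  have hd : (hankel G n n).det = Q226.TM.tau n := Q226.TM.hankel_diag G h0 h1 n
  rw [hd]
  refine ⟨fun h => (Q226.TM.tau_iff n).2 h, fun h => ?_⟩
  rcases Q226.TM.tau_good n with e | e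
  · exact e
  · exact absurd ((Q226.TM.tau_iff n).1 e) h

end Pool.Agent.Results.MP_be5c27_co.DiagonalHankel
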